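import Pool.Agent.ASE.Stmts2
import Pool.Agent.Helper11_K9.Base
import Pool.Agent.Helper32_KF.St1

/-!
# Squad ASE, row DCR: reduction to the trivial central character
-/

open scoped BigOperators

noncomputable section

namespace Pool.Agent.PP.SE.H24

open Pool.Agent.Helper51_AWC Pool.Agent.Helper79_WRA Pool.Agent.PP Pool.Agent.PP.KF
open Pool.Agent.PP.K9 Pool.Agent.PP.K9.H97 Pool.Agent.PP.H75 Pool.Agent.PP.T3 Pool.Agent.PP.SO
open Pool.Agent.PP.SD

attribute [local instance] Ideal.Quotient.field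

theorem finsum_true' {p : Prop} (h : p) (x : ℂ) : ∑ᶠ _ : p, x = x := by
  classical
  rw [finsum_eq_if, if_pos h]

theorem finsum_false' {p : Prop} (h : ¬ p) (x : ℂ) : ∑ᶠ _ : p, x = 0 := by
  classical
  rw [finsum_eq_if, if_neg h]

section core

variable {H : Type} [Group H] [Fintype H]

/-- expansion of a class function with integral inner products -/
theorem expand (θ : H → ℂ) (hθ : ∀ g h, θ (h * g * h⁻¹) = θ g) (z : (H → ℂ) → ℤ)
    (hz : ∀ ψ ∈ Irr H, ipn θ ψ = z ψ) (g : H) :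
    θ g = ∑ ψ ∈ (irr_finite' (G := H)).toFinset, (z ψ : ℂ) * ψ g := by
  classical
  have hc : (Fintype.card H : ℂ) ≠ 0 := by exact_mod_cast Fintype.card_ne_zero
  have h1 : (θ - fun g => ∑ ψ ∈ (irr_finite' (G := H)).toFinset, (z ψ : ℂ) * ψ g) = 0 := by
    apply irr_complete'
    · intro g h
      rw [Pi.sub_apply, Pi.sub_apply, hθ]
      congr 1
      refine Finset.sum_congr rfl fun ψ hψ => ?_
      rw [Set.Finite.mem_toFinset] at hψ
      rw [irr_conj hψ]
    · intro χ hχ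
      simp only [Pi.sub_apply, sub_mul, Finset.sum_sub_distrib]
      have e1 : ∑ g, θ g * χ g⁻¹ = Fintype.card H * z χ := by
        have h2 := hz χ hχ
        rw [H11.ipn_eq, Nat.card_eq_fintype_card] at h2
        rw [← h2, ← mul_assoc, mul_inv_cancel₀ hc, one_mul]
        exact Finset.sum_congr rfl fun x _ => by rw [H94.irr_star hχ]
      have e2 : ∑ g, (∑ ψ ∈ (irr_finite' (G := H)).toFinset, (z ψ : ℂ) * ψ g) * χ g⁻¹ =
          Fintype.card H * z χ := by
        simp only [Finset.sum_mul]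
        rw [Finset.sum_comm, Finset.sum_eq_single_of_mem χ]
        · simp_rw [mul_assoc]
          rw [← Finset.mul_sum, irr_orth_self hχ]
          ring
        · rw [Set.Finite.mem_toFinset]
          exact hχ
        · intro ψ hψ hne
          rw [Set.Finite.mem_toFinset] at hψ
          simp_rw [mul_assoc]
          rw [← Finset.mul_sum, irr_orth_ne hψ hχ hne, mul_zero]
      rw [e1, e2, sub_self]
  have h2 := congrFun h1 g
  rw [Pi.sub_apply, Pi.zero_apply] at h2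
  exact sub_eq_zero.1 h2

/-- the inner product with a character whose central character is different -/
theorem ipn_zero (θ : H → ℂ) {x : H} (hx : x ∈ Subgroup.center H) (hθ : ∀ g, θ (x * g) = θ g)
    {ψ : H → ℂ} (hψ : ψ ∈ Irr H) (hne : ψ x / ψ 1 ≠ 1) : ipn θ ψ = 0 := by
  rw [H11.ipn_eq]
  have h1 : ∑ g, θ g * starRingEnd ℂ (ψ g) =
      starRingEnd ℂ (ψ x / ψ 1) * ∑ g, θ g * starRingEnd ℂ (ψ g) := by
    conv_lhs => rw [← Equiv.sum_comp (Equiv.mulLeft x)]
    rw [Finset.mul_sum]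
    refine Finset.sum_congr rfl fun g _ => ?_
    rw [Equiv.coe_mulLeft, hθ, KF.H32.central_mul hψ hx g, map_mul]
    ring
  have h2 : (1 - starRingEnd ℂ (ψ x / ψ 1)) * ∑ g, θ g * starRingEnd ℂ (ψ g) = 0 := by
    rw [sub_mul, one_mul, ← h1, sub_self]
  rcases mul_eq_zero.1 h2 with h3 | h3
  · exfalso
    apply hne
    have h4 : starRingEnd ℂ (ψ x / ψ 1) = 1 := (sub_eq_zero.1 h3).symm
    have h5 := congrArg (starRingEnd ℂ) h4
    rwa [Complex.conj_conj, map_one] at h5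
  · rw [h3, mul_zero]

variable {ℓ : ℕ} [Fact ℓ.Prime] {M : Ideal (integralClosure ℤ ℂ)} [M.IsMaximal]

open Classical in
/-- the core of DCR, in one group -/
theorem core (hM : (ℓ : integralClosure ℤ ℂ) ∈ M) (hprt : K9.PrtStmt) (hada : K9.AdaStmt)
    (hrot : K9.RotStmt) {b : H → FF M} (hb : IsIdem b) (Z : Set H)
    (hZ : ∀ x ∈ Z, x ∈ Subgroup.center H ∧ ∃ n : ℕ, x ^ ℓ ^ n = 1) {χ : H → ℂ}
    (hχ : χ ∈ IrrE M b) :
    ∃ z : (H → ℂ) → ℤ, ∀ g, Reg ℓ g →
      χ g = ∑ᶠ ψ ∈ {ψ | ψ ∈ IrrE M b ∧ ∀ x ∈ Z, ψ x / ψ 1 = 1}, (z ψ : ℂ) * ψ g := by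
  obtain ⟨N, hN1, hN2⟩ := hprt ℓ H
  set θ : H → ℂ := fun g => χ (g ^ N) with hθdef
  have hcl : ∀ g h, θ (h * g * h⁻¹) = θ g := by
    intro g h
    simp only [hθdef]
    rw [conj_pow, irr_conj hχ.1]
  have hcomm : ∀ g : H, Commute (g ^ N) ((g ^ N)⁻¹ * g) := by
    intro g
    have h1 : Commute (g ^ N) g := Commute.pow_left (Commute.refl g) N
    exact (Commute.refl (g ^ N)).inv_right.mul_right h1
  have hθZ : ∀ x ∈ Z, ∀ g, θ (x * g) = θ g := by
    intro x hx g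
    obtain ⟨hxc, m, hm⟩ := hZ x hx
    obtain ⟨n, hn⟩ := (hN1 g).2
    have hxg : ∀ y : H, Commute x y := fun y => (Subgroup.mem_center_iff.1 hxc y).symm
    have h1 : x * g = g ^ N * (x * ((g ^ N)⁻¹ * g)) := by
      rw [← mul_assoc, ← (hxg (g ^ N)).eq, mul_assoc, mul_inv_cancel_left]
    have h2 : (x * g) ^ N = g ^ N := by
      conv_lhs => rw [h1]
      refine hN2 _ _ ?_ (hN1 g).1 ⟨m + n, ?_⟩
      · exact ((hxg (g ^ N)).symm).mul_right (hcomm g)
      · rw [(hxg _).mul_pow, pow_add, pow_mul, hm, one_pow, one_mul, mul_comm (ℓ ^ m), pow_mul,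
          hn, one_pow]
    simp only [hθdef]
    rw [h2]
  have hreg : ∀ g, Reg ℓ g → θ g = χ g := by
    intro g hg
    have h1 := hN2 g 1 (Commute.one_right g) hg ⟨0, one_pow _⟩
    rw [mul_one] at h1
    simp only [hθdef]
    rw [h1]
  have hint : ∀ ψ : H → ℂ, ∃ m : ℤ, ψ ∈ Irr H → ipn θ ψ = m := by
    intro ψ
    by_cases hψ : ψ ∈ Irr H
    · obtain ⟨m, hm⟩ := hada H N χ (AddSubgroup.subset_closure hχ.1) ψ
        (AddSubgroup.subset_closure hψ)
      exact ⟨m, fun _ => hm⟩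
    · exact ⟨0, fun h => absurd h hψ⟩
  choose z hz using hint
  have hexp := expand θ hcl z hz
  set S := (irr_finite' (G := H)).toFinset with hS
  have hmS : ∀ ψ, ψ ∈ S ↔ ψ ∈ Irr H := fun ψ => Set.Finite.mem_toFinset _
  have hz0 : ∀ ψ ∈ Irr H, ¬ (∀ x ∈ Z, ψ x / ψ 1 = 1) → z ψ = 0 := by
    intro ψ hψ h
    push Not at h
    obtain ⟨x, hx, hne⟩ := h
    have h1 := ipn_zero θ (hZ x hx).1 (hθZ x hx) hψ hne
    rw [hz ψ hψ] at h1
    exact_mod_cast h1
  -- the two parts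
  set E := S.filter (fun ψ => ψ ∈ IrrE M b) with hE
  set O := S.filter (fun ψ => ψ ∉ IrrE M b) with hO
  have hsplit : ∀ g, θ g = ∑ ψ ∈ E, (z ψ : ℂ) * ψ g + ∑ ψ ∈ O, (z ψ : ℂ) * ψ g := by
    intro g
    rw [hexp g, hE, hO, Finset.sum_filter_add_sum_filter_not]
  set f₀ : H → ℂ := χ - ∑ ψ ∈ E, (z ψ : ℂ) • ψ with hf₀
  have hf₀s : f₀ ∈ Submodule.span ℂ (IrrE M b) := by
    refine Submodule.sub_mem _ (Submodule.subset_span hχ) (Submodule.sum_mem _ ?_)
    intro ψ hψ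
    exact Submodule.smul_mem _ _ (Submodule.subset_span (Finset.mem_filter.1 hψ).2)
  have hf₀g : ∀ g, Reg ℓ g → f₀ g = ∑ ψ ∈ O, (z ψ : ℂ) * ψ g := by
    intro g hg
    have h1 := hsplit g
    rw [hreg g hg] at h1
    have h2 : f₀ g = χ g - ∑ ψ ∈ E, (z ψ : ℂ) * ψ g := by
      rw [hf₀, Pi.sub_apply, Finset.sum_apply]
      rfl
    rw [h2, h1, add_sub_cancel_left]
  obtain ⟨hr1, hr2⟩ := hrot ℓ M hM H b hb
  have hF := hr1 f₀ hf₀s
  set F : H → ℂ := fun g => if Reg ℓ g then f₀ g else 0 with hFdef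
  have hort : ∀ ψ ∈ Irr H, ψ ∉ IrrE M b → ∀ f ∈ Submodule.span ℂ (IrrE M b),
      ∑ s : H, (if Reg ℓ s then f s * starRingEnd ℂ (ψ s) else 0) = 0 := by
    intro ψ hψ hψn f hf
    induction hf using Submodule.span_induction with
    | mem f hf =>
      have h1 := hr2 f hf ψ hψ hψn
      rw [finsum_eq_sum_of_fintype] at h1
      refine Eq.trans ?_ h1
      refine Finset.sum_congr rfl fun s _ => ?_
      by_cases hs : Reg ℓ s
      · rw [if_pos hs, finsum_true' hs]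
      · rw [if_neg hs, finsum_false' hs]
    | zero =>
      refine Finset.sum_eq_zero fun s _ => ?_
      rw [Pi.zero_apply, zero_mul, ite_self]
    | add f f' _ _ h h' =>
      have e : ∑ s : H, (if Reg ℓ s then (f + f') s * starRingEnd ℂ (ψ s) else 0) =
          ∑ s : H, (if Reg ℓ s then f s * starRingEnd ℂ (ψ s) else 0) +
          ∑ s : H, (if Reg ℓ s then f' s * starRingEnd ℂ (ψ s) else 0) := by
        rw [← Finset.sum_add_distrib]
        refine Finset.sum_congr rfl fun s _ => ?_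
        split_ifs
        · rw [Pi.add_apply, add_mul]
        · rw [add_zero]
      rw [e, h, h', add_zero]
    | smul c f _ h =>
      have e : ∑ s : H, (if Reg ℓ s then (c • f) s * starRingEnd ℂ (ψ s) else 0) =
          c * ∑ s : H, (if Reg ℓ s then f s * starRingEnd ℂ (ψ s) else 0) := by
        rw [Finset.mul_sum]
        refine Finset.sum_congr rfl fun s _ => ?_
        split_ifs
        · rw [Pi.smul_apply, smul_eq_mul, mul_assoc]
        · rw [mul_zero]
      rw [e, h, mul_zero]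
  have hnorm : ∑ s : H, Complex.normSq (F s) = 0 := by
    have h1 : ((∑ s : H, Complex.normSq (F s) : ℝ) : ℂ) = 0 := by
      push_cast
      have h2 : ∀ s : H, ((Complex.normSq (F s) : ℝ) : ℂ) =
          ∑ ψ ∈ O, (z ψ : ℂ) * (if Reg ℓ s then F s * starRingEnd ℂ (ψ s) else 0) := by
        intro s
        rw [← Complex.mul_conj]
        by_cases hs : Reg ℓ s
        · simp only [if_pos hs]
          have h3 : F s = ∑ ψ ∈ O, (z ψ : ℂ) * ψ s := by
            rw [hFdef]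
            simp only [if_pos hs]
            exact hf₀g s hs
          conv_lhs => rw [h3]
          rw [map_sum, ← h3, Finset.mul_sum]
          refine Finset.sum_congr rfl fun ψ _ => ?_
          rw [map_mul, map_intCast]
          ring
        · have h3 : F s = 0 := by
            rw [hFdef]
            simp only [if_neg hs]
          rw [h3]
          simp [if_neg hs]
      rw [Finset.sum_congr rfl fun s _ => h2 s, Finset.sum_comm]
      refine Finset.sum_eq_zero fun ψ hψ => ?_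
      rw [← Finset.mul_sum, hort ψ ((hmS ψ).1 (Finset.mem_filter.1 hψ).1)
        (Finset.mem_filter.1 hψ).2 F hF, mul_zero]
    exact_mod_cast h1
  have hF0 : ∀ s : H, F s = 0 := by
    intro s
    have h1 := (Finset.sum_eq_zero_iff_of_nonneg (fun s _ => Complex.normSq_nonneg (F s))).1
      hnorm s (Finset.mem_univ s)
    exact Complex.normSq_eq_zero.1 h1
  refine ⟨z, fun g hg => ?_⟩
  have h1 : f₀ g = 0 := by
    have h2 := hF0 g
    rw [hFdef] at h2
    simpa only [if_pos hg] using h2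
  have h2 : f₀ g = χ g - ∑ ψ ∈ E, (z ψ : ℂ) * ψ g := by
    rw [hf₀, Pi.sub_apply, Finset.sum_apply]
    rfl
  have h3 : χ g = ∑ ψ ∈ E, (z ψ : ℂ) * ψ g := by
    rw [h2] at h1
    exact sub_eq_zero.1 h1
  rw [h3]
  have h4 : {ψ | ψ ∈ IrrE M b ∧ ∀ x ∈ Z, ψ x / ψ 1 = 1} =
      ((E.filter (fun ψ => ∀ x ∈ Z, ψ x / ψ 1 = 1) : Finset (H → ℂ)) : Set (H → ℂ)) := by
    ext ψ
    simp only [Set.mem_setOf_eq, Finset.coe_filter, hE, Finset.mem_filter, hmS]
    constructor
    · rintro ⟨ha, hb'⟩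
      exact ⟨⟨ha.1, ha⟩, hb'⟩
    · rintro ⟨⟨_, ha⟩, hb'⟩
      exact ⟨ha, hb'⟩
  rw [h4, finsum_mem_coe_finset]
  symm
  refine Finset.sum_filter_of_ne ?_
  intro ψ hψ hne
  by_contra hcon
  apply hne
  rw [hz0 ψ ((hmS ψ).1 (Finset.mem_filter.1 hψ).1) hcon]
  simp

end core

open Classical in
/-- **DCR**. -/
theorem dcr (hprt : K9.PrtStmt) (hada : K9.AdaStmt) (hrot : K9.RotStmt) : DcrStmt := by
  intro ℓ _ M _ hM hℓ V₀ G _ _ _ _ E₀ hFq B hB W hW χ hχ
  have hF := Fintype.ofFinite (B.C W)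
  have hb : IsIdem (fun t : B.C W => B.b W t) := (hB.lb W).blk.blk.1
  have hmem : ∀ v : V₀, B.i v ∈ B.C W := by
    intro v
    unfold Bk.C
    rw [Subgroup.mem_centralizer_iff]
    rintro _ ⟨w, _, rfl⟩
    rw [← map_mul, ← map_mul, mul_comm]
  obtain ⟨z, hz⟩ := core hM hprt hada hrot hb {t : B.C W | ∃ w ∈ W, (t : G) = B.i w} (by
    rintro x ⟨w, hw, hx⟩
    refine ⟨?_, 1, ?_⟩
    · rw [Subgroup.mem_center_iff]
      intro y
      apply Subtype.ext
      change (y : G) * x = x * y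
      rw [hx]
      have hy := y.2
      unfold Bk.C at hy
      rw [Subgroup.mem_centralizer_iff] at hy
      exact (hy (B.i w) ⟨w, hw, rfl⟩).symm
    · apply Subtype.ext
      rw [pow_one]
      push_cast
      rw [hx, ← map_pow]
      have h1 : (⟨w, hw⟩ : W) ^ Nat.card W = 1 := pow_card_eq_one'
      rw [hW.1] at h1
      have h2 := congrArg (fun t : W => (t : V₀)) h1
      have h3 : w ^ ℓ = 1 := by simpa using h2
      rw [h3, map_one]) hχ.2
  refine ⟨fun ψ => z (fun t : B.C W => ψ t), fun g hg hr => ?_⟩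
  have hr' : Reg ℓ (⟨g, hg⟩ : B.C W) := by
    unfold Reg at hr ⊢
    rwa [Subgroup.orderOf_mk]
  have h1 := hz ⟨g, hg⟩ hr'
  change χ g = _ at h1
  rw [h1]
  symm
  refine finsum_mem_eq_of_bijOn (fun (ψ : G → ℂ) (t : B.C W) => ψ t) ⟨?_, ?_, ?_⟩ ?_
  · rintro ψ ⟨hψ1, hψ2⟩
    refine ⟨hψ1.2, ?_⟩
    rintro x ⟨w, hw, hx⟩
    have h3 := hψ2 w hw
    unfold nu at h3
    change ψ x / ψ ((1 : B.C W) : G) = 1
    rw [hx]
    exact h3
  · rintro ψ ⟨hψ1, _⟩ φ ⟨hφ1, _⟩ he
    funext g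
    by_cases hg : g ∈ B.C W
    · exact congrFun he ⟨g, hg⟩
    · rw [hψ1.1 g hg, hφ1.1 g hg]
  · rintro ψ ⟨hψ1, hψ2⟩
    have hr : (fun t : B.C W => (if h : (t : G) ∈ B.C W then ψ ⟨t, h⟩ else 0)) = ψ := by
      funext t
      rw [dif_pos t.2]
    refine ⟨fun g => if h : g ∈ B.C W then ψ ⟨g, h⟩ else 0, ⟨⟨?_, ?_⟩, ?_⟩, hr⟩
    · intro g hg
      change (if h : g ∈ B.C W then ψ ⟨g, h⟩ else 0) = 0
      rw [dif_neg hg]
    · change (fun t : B.C W => (if h : (t : G) ∈ B.C W then ψ ⟨t, h⟩ else 0)) ∈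
        IrrE M (fun t : B.C W => B.b W t)
      rw [hr]
      exact hψ1
    · intro w hw
      unfold nu
      have h3 := hψ2 ⟨B.i w, hmem w⟩ ⟨w, hw, rfl⟩
      change (if h : B.i w ∈ B.C W then ψ ⟨B.i w, h⟩ else 0) /
        (if h : (1 : G) ∈ B.C W then ψ ⟨1, h⟩ else 0) = 1
      rw [dif_pos (hmem w), dif_pos (B.C W).one_mem]
      exact h3
  · rintro ψ _
    rfl

end Pool.Agent.PP.SE.H24
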